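import Pool.Agent.H27.L1.H5.GHK.ROT
import Pool.Agent.H27.L1.H47.GHK.ROT

/-!
Row MNQ (part of WEY) of the board ghk: the minors under a rotation of two neighbouring columns.
-/

set_option autoImplicit false

namespace Pool.Agent.H27.L1.H5.GHK

open MeasureTheory Real Pool.Agent.H27.L1.H34.GM Pool.Agent.H27.L1.H68.GHK Pool.Agent.H27.L1.H47.GHK Matrix

/-- the columns of `w * rot p q θ` for rectangular `w` -/
theorem mul_rot_rect {m i : ℕ} {p q : Fin i} (hpq : p ≠ q) (w : Matrix (Fin m) (Fin i) ℝ) (θ : ℝ)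
    (a : Fin m) (b : Fin i) :
    (w * rot p q θ) a b = if b = p then cos θ * w a p + sin θ * w a q
      else if b = q then -sin θ * w a p + cos θ * w a q else w a b := by
  rw [Matrix.mul_apply]
  by_cases hb : b = p
  · rw [if_pos hb]
    have h1 : ∀ x ∈ Finset.univ, x ≠ p ∧ x ≠ q → w a x * rot p q θ x b = 0 := by
      intro x _ hx
      simp [rot, hb, hx.1, hx.2]
    rw [← Finset.sum_subset (Finset.subset_univ ({p, q} : Finset (Fin i)))
      (fun x hx hx2 => h1 x hx (by simpa [not_or] using hx2)), Finset.sum_pair hpq]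
    simp [rot, hb, hpq.symm]
    ring
  · rw [if_neg hb]
    by_cases hb2 : b = q
    · rw [if_pos hb2]
      have h1 : ∀ x ∈ Finset.univ, x ≠ p ∧ x ≠ q → w a x * rot p q θ x b = 0 := by
        intro x _ hx
        simp [rot, hb2, hpq.symm, hx.1, hx.2]
      rw [← Finset.sum_subset (Finset.subset_univ ({p, q} : Finset (Fin i)))
        (fun x hx hx2 => h1 x hx (by simpa [not_or] using hx2)), Finset.sum_pair hpq]
      simp [rot, hb2, hpq.symm]
      ring
    · rw [if_neg hb2, Finset.sum_eq_single b]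
      · simp [rot, hb, hb2]
      · intro x _ hx
        simp [rot, hb, hb2, hx]
      · intro h
        exact absurd (Finset.mem_univ b) h

variable {m n : ℕ}

theorem pq_ne (h : n + 1 < m) :
    (⟨n, Nat.lt_of_succ_lt h⟩ : Fin m) ≠ ⟨n + 1, h⟩ := by
  intro h1
  have := congrArg Fin.val h1
  simp at this

theorem det_rot_ne (h : n + 1 < m) (θ : ℝ) :
    (rot (⟨n, Nat.lt_of_succ_lt h⟩ : Fin m) ⟨n + 1, h⟩ θ).det ≠ 0 := by
  intro h1
  have h2 := congrArg Matrix.det (rot_orth (pq_ne h) θ)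
  rw [Matrix.det_mul, h1, zero_mul, Matrix.det_one] at h2
  exact zero_ne_one h2

/-- the first columns are not changed -/
theorem cl_rot_low {i : ℕ} (hi : i ≤ m) (h : n + 1 < m) (hin : i ≤ n) (z : Mat m) (θ : ℝ) :
    cl hi (z * rot ⟨n, Nat.lt_of_succ_lt h⟩ ⟨n + 1, h⟩ θ) = cl hi z := by
  ext a b
  have h1 := mul_rot (pq_ne h) z θ a (Fin.castLE hi b)
  have h2 : Fin.castLE hi b ≠ ⟨n, Nat.lt_of_succ_lt h⟩ := by
    intro h3
    have h4 := congrArg Fin.val h3
    have h5 := b.isLt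
    simp at h4
    omega
  have h3 : Fin.castLE hi b ≠ ⟨n + 1, h⟩ := by
    intro h3
    have h4 := congrArg Fin.val h3
    have h5 := b.isLt
    simp at h4
    omega
  rw [if_neg h2, if_neg h3] at h1
  exact h1

theorem cl_rot_high {i : ℕ} (hi : i ≤ m) (h : n + 1 < m) (hin : n + 1 < i) (z : Mat m) (θ : ℝ) :
    cl hi (z * rot ⟨n, Nat.lt_of_succ_lt h⟩ ⟨n + 1, h⟩ θ) =
      cl hi z * rot ⟨n, Nat.lt_of_succ_lt hin⟩ ⟨n + 1, hin⟩ θ := by
  ext a b
  rw [mul_rot_rect (pq_ne hin)]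
  have h1 := mul_rot (pq_ne h) z θ a (Fin.castLE hi b)
  refine Eq.trans h1 ?_
  have e1 : (Fin.castLE hi b = ⟨n, Nat.lt_of_succ_lt h⟩) = (b = ⟨n, Nat.lt_of_succ_lt hin⟩) := by
    rw [Fin.ext_iff, Fin.ext_iff]
    rfl
  have e2 : (Fin.castLE hi b = ⟨n + 1, h⟩) = (b = ⟨n + 1, hin⟩) := by
    rw [Fin.ext_iff, Fin.ext_iff]
    rfl
  simp only [e1, e2]
  rfl

theorem mnr_rot_ne (h : n + 1 < m) (z : Mat m) (i : ℕ) (θ : ℝ) (hi : i ≠ n + 1) :
    mnr (z * rot ⟨n, Nat.lt_of_succ_lt h⟩ ⟨n + 1, h⟩ θ) i = mnr z i := by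
  by_cases him : i ≤ m
  · rw [mnr_eq' him, mnr_eq' him]
    rcases Nat.lt_or_ge n i with h1 | h1
    · have hin : n + 1 < i := by omega
      rw [cl_rot_high him h hin]
      obtain ⟨r, hr⟩ : ∃ r : Mat i, r = rot ⟨n, Nat.lt_of_succ_lt hin⟩ ⟨n + 1, hin⟩ θ := ⟨_, rfl⟩
      have h2 : r.transpose * r = 1 := by rw [hr]; exact rot_orth' (pq_ne hin) θ
      rw [← hr]
      have h3 : (cl him z * r).transpose * (cl him z * r) =
          r.transpose * ((cl him z).transpose * cl him z) * r := by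
        rw [Matrix.transpose_mul]
        simp only [Matrix.mul_assoc]
      have h4 := congrArg Matrix.det h2
      rw [Matrix.det_mul, Matrix.det_one] at h4
      rw [h3, Matrix.det_mul, Matrix.det_mul]
      calc r.transpose.det * ((cl him z).transpose * cl him z).det * r.det =
            r.transpose.det * r.det * ((cl him z).transpose * cl him z).det := by ring
        _ = ((cl him z).transpose * cl him z).det := by rw [h4, one_mul]
    · rw [cl_rot_low him h h1]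
  · unfold mnr
    rw [dif_neg him, dif_neg him]

theorem mnr_pos' {i : ℕ} (hi : i ≤ m) {z : Mat m} (hz : z.det ≠ 0) : 0 < mnr z i := by
  rw [mnr_eq' hi]
  exact gram_pos hi hz

theorem pf_MNQ : T_MNQ := by
  intro m n h z hz
  refine ⟨fun i θ hi => mnr_rot_ne h z i θ hi, ?_⟩
  have hn : n ≤ m := by omega
  have hn1 : n + 1 ≤ m := by omega
  have hn2 : n + 2 ≤ m := by omega
  obtain ⟨P, hP⟩ : ∃ P, P = 1 - EP n z := ⟨_, rfl⟩
  obtain ⟨X, hX⟩ : ∃ X, X = cn hn2 z := ⟨_, rfl⟩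
  obtain ⟨Q, hQ⟩ : ∃ Q, Q = X.transpose * P * X := ⟨_, rfl⟩
  have hPs : P.transpose = P := by
    rw [hP, Matrix.transpose_sub, Matrix.transpose_one, (ep_prj hn hz).sym]
  have hQs : Q.transpose = Q := by
    rw [hQ, Matrix.transpose_mul, Matrix.transpose_mul, Matrix.transpose_transpose, hPs,
      Matrix.mul_assoc]
  have hQ10 : Q 1 0 = Q 0 1 := by
    have h1 := congrFun (congrFun hQs 0) 1
    rwa [Matrix.transpose_apply] at h1
  have hdet : mnr z (n + 2) = mnr z n * (Q 0 0 * Q 1 1 - Q 0 1 ^ 2) := by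
    rw [gram_split hn2 hz, ← hX, ← hP, ← hQ, Matrix.det_fin_two, hQ10]
    ring
  have hrot : ∀ θ : ℝ, mnr (z * rot ⟨n, Nat.lt_of_succ_lt h⟩ ⟨n + 1, h⟩ θ) (n + 1) =
      mnr z n * qc (Q 0 0) (Q 0 1) (Q 1 1) θ := by
    intro θ
    obtain ⟨w, hw⟩ : ∃ w, w = z * rot ⟨n, Nat.lt_of_succ_lt h⟩ ⟨n + 1, h⟩ θ := ⟨_, rfl⟩
    have hwd : w.det ≠ 0 := by
      rw [hw, Matrix.det_mul]
      exact mul_ne_zero hz (det_rot_ne h θ)
    have hE : EP n w = EP n z := by
      rw [ep_eq hn, ep_eq hn, hw, cl_rot_low hn h le_rfl]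
    have hm : mnr w n = mnr z n := by
      rw [hw]
      exact mnr_rot_ne h z n θ (by omega)
    rw [← hw, gram_split hn1 hwd, hE, hm, ← hP]
    congr 1
    have hcol : cn hn1 w = X * (Matrix.of fun (a : Fin 2) (_ : Fin 1) =>
        if a = 0 then cos θ else sin θ) := by
      ext a b
      rw [Matrix.mul_apply, Fin.sum_univ_two, hX]
      have hb : b = 0 := Subsingleton.elim _ _
      subst hb
      have h1 := mul_rot (pq_ne h) z θ a ⟨n, Nat.lt_of_succ_lt h⟩
      rw [if_pos rfl, ← hw] at h1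
      have h2 : cn hn1 w a 0 = w a ⟨n, Nat.lt_of_succ_lt h⟩ := rfl
      have h3 : cn hn2 z a 0 = z a ⟨n, Nat.lt_of_succ_lt h⟩ := rfl
      have h4 : cn hn2 z a 1 = z a ⟨n + 1, h⟩ := rfl
      rw [h2, h1, h3, h4]
      simp
      ring
    obtain ⟨r, hr⟩ : ∃ r : Matrix (Fin 2) (Fin 1) ℝ, r = Matrix.of fun (a : Fin 2) (_ : Fin 1) =>
        if a = 0 then cos θ else sin θ := ⟨_, rfl⟩
    rw [hcol, ← hr]
    have h5 : (X * r).transpose * P * (X * r) = r.transpose * Q * r := by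
      rw [hQ, Matrix.transpose_mul]
      simp only [Matrix.mul_assoc]
    rw [h5, Matrix.det_fin_one]
    have hr0 : r 0 0 = cos θ := by rw [hr]; simp
    have hr1 : r 1 0 = sin θ := by rw [hr]; simp
    have h6 : (r.transpose * Q * r) 0 0 =
        (r 0 0 * Q 0 0 + r 1 0 * Q 1 0) * r 0 0 + (r 0 0 * Q 0 1 + r 1 0 * Q 1 1) * r 1 0 := by
      simp only [Matrix.mul_apply, Fin.sum_univ_two, Matrix.transpose_apply]
    rw [h6, hr0, hr1, hQ10]
    unfold qc
    ring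
  have hn0 := mnr_pos' hn hz
  refine ⟨Q 0 0, Q 0 1, Q 1 1, ?_, ?_, hdet, hrot⟩
  · have h1 := hrot (π / 2)
    have h2 : 0 < mnr (z * rot ⟨n, Nat.lt_of_succ_lt h⟩ ⟨n + 1, h⟩ (π / 2)) (n + 1) :=
      mnr_pos' hn1 (by
        rw [Matrix.det_mul]
        exact mul_ne_zero hz (det_rot_ne h _))
    rw [h1] at h2
    unfold qc at h2
    rw [Real.cos_pi_div_two, Real.sin_pi_div_two] at h2
    have h3 : Q 0 0 * (0 : ℝ) ^ 2 + 2 * Q 0 1 * (0 * 1) + Q 1 1 * 1 ^ 2 = Q 1 1 := by ring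
    rw [h3] at h2
    exact (mul_pos_iff_of_pos_left hn0).1 h2
  · have h1 := mnr_pos' hn2 hz
    rw [hdet] at h1
    exact (mul_pos_iff_of_pos_left hn0).1 h1

end Pool.Agent.H27.L1.H5.GHK
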