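import Pool.Agent.H27.L1.H68.GHK.Targets

/-!
Row FLG of the board ghk: the projections of a flag.
-/

set_option autoImplicit false

namespace Pool.Agent.H27.L1.H5.GHK

open MeasureTheory Pool.Agent.H27.L1.H34.GM Pool.Agent.H27.L1.H34.GZ Pool.Agent.H27.L1.H34.GU Pool.Agent.H27.L1.H34.GA
open Pool.Agent.H27.L1.H68.GHK Matrix

/-- the trace of a product of projections -/
theorem prj_tr {m : ℕ} {E F : Mat m} (hE : Prj E) (hF : Prj F) : 0 ≤ (E * F).trace := by
  have h1 : (E * F).trace = ((F * E).transpose * (F * E)).trace := by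
    rw [Matrix.transpose_mul, hE.sym, hF.sym]
    have h2 : E * F * (F * E) = E * F * E := by
      rw [Matrix.mul_assoc E F (F * E), ← Matrix.mul_assoc F F E, hF.idem, ← Matrix.mul_assoc]
    rw [h2, Matrix.trace_mul_comm (E * F) E, ← Matrix.mul_assoc, hE.idem]
  rw [h1, Matrix.trace]
  refine Finset.sum_nonneg fun i _ => ?_
  rw [Matrix.diag_apply, Matrix.mul_apply]
  refine Finset.sum_nonneg fun k _ => ?_
  rw [Matrix.transpose_apply]
  exact mul_self_nonneg _

theorem prj_compl {m : ℕ} {E : Mat m} (hE : Prj E) : Prj (1 - E) := by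
  constructor
  · rw [Matrix.transpose_sub, Matrix.transpose_one, hE.sym]
  · rw [Matrix.sub_mul, Matrix.one_mul, Matrix.mul_sub, Matrix.mul_one, hE.idem, sub_self,
      sub_zero]

theorem prj_le {m : ℕ} {E F : Mat m} (hE : Prj E) (hF : Prj F) :
    (E * F).trace ≤ E.trace ∧ (E * F).trace ≤ F.trace := by
  have h1 := prj_tr hE (prj_compl hF)
  have h2 := prj_tr (prj_compl hE) hF
  rw [Matrix.mul_sub, Matrix.mul_one, Matrix.trace_sub] at h1
  rw [Matrix.sub_mul, Matrix.one_mul, Matrix.trace_sub] at h2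
  constructor <;> linarith

variable {m j : ℕ}

/-- the first columns -/
abbrev cl (h : j ≤ m) (w : Mat m) : Matrix (Fin m) (Fin j) ℝ := w.submatrix id (Fin.castLE h)

theorem gram (h : j ≤ m) (w : Mat m) : (cl h w).transpose * cl h w =
    (w.transpose * w).submatrix (Fin.castLE h) (Fin.castLE h) := by
  ext a b
  simp [Matrix.mul_apply, cl]

theorem sub_mul_sub (f : Fin j → Fin m) (g : Fin j → Fin m) (a b : Mat m) :
    a.submatrix f id * b.submatrix id g = (a * b).submatrix f g := by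
  ext x y
  simp [Matrix.mul_apply]

theorem mul_cl (h : j ≤ m) (a b : Mat m) : a * cl h b = cl h (a * b) := by
  ext x y
  simp [Matrix.mul_apply, cl]

theorem gram_pos (h : j ≤ m) {w : Mat m} (hw : w.det ≠ 0) :
    0 < ((cl h w).transpose * cl h w).det := by
  have hinj : Function.Injective (cl h w).mulVec := by
    intro x y hxy
    have h1 : (w⁻¹).submatrix (Fin.castLE h) id * cl h w = 1 := by
      rw [sub_mul_sub, Matrix.nonsing_inv_mul w (isUnit_iff_ne_zero.2 hw)]
      exact Matrix.submatrix_one _ (Fin.castLE_injective h)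
    have h2 : ∀ v : Fin j → ℝ, (w⁻¹).submatrix (Fin.castLE h) id *ᵥ (cl h w *ᵥ v) = v := by
      intro v
      rw [Matrix.mulVec_mulVec, h1, Matrix.one_mulVec]
    rw [← h2 x, ← h2 y]
    exact congrArg _ hxy
  have h1 : ((cl h w).conjTranspose * cl h w).PosDef :=
    Matrix.PosDef.conjTranspose_mul_self _ hinj
  have h2 : (cl h w).conjTranspose = (cl h w).transpose :=
    Matrix.conjTranspose_eq_transpose_of_trivial _
  rw [h2] at h1
  exact h1.det_pos

/-- the projection -/
theorem ep_eq (h : j ≤ m) (w : Mat m) : EP j w =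
    cl h w * ((cl h w).transpose * cl h w)⁻¹ * (cl h w).transpose := by
  unfold EP
  rw [dif_pos h]

theorem ep_mul_cl (h : j ≤ m) {w : Mat m} (hw : w.det ≠ 0) : EP j w * cl h w = cl h w := by
  have h1 := gram_pos h hw
  rw [ep_eq h, Matrix.mul_assoc, Matrix.mul_assoc, Matrix.nonsing_inv_mul _
    (isUnit_iff_ne_zero.2 h1.ne'), Matrix.mul_one]

theorem ep_prj (h : j ≤ m) {w : Mat m} (hw : w.det ≠ 0) : Prj (EP j w) := by
  constructor
  · rw [ep_eq h, Matrix.transpose_mul, Matrix.transpose_mul, Matrix.transpose_transpose,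
      Matrix.transpose_nonsing_inv, Matrix.transpose_mul, Matrix.transpose_transpose,
      Matrix.mul_assoc]
  · have h1 := ep_mul_cl h hw
    nth_rewrite 2 [ep_eq h]
    rw [← Matrix.mul_assoc, ← Matrix.mul_assoc, h1, ← ep_eq h]

theorem ep_trace (h : j ≤ m) {w : Mat m} (hw : w.det ≠ 0) : (EP j w).trace = j := by
  have h1 := gram_pos h hw
  rw [ep_eq h, Matrix.trace_mul_comm, ← Matrix.mul_assoc, Matrix.mul_nonsing_inv _
    (isUnit_iff_ne_zero.2 h1.ne'), Matrix.trace_one, Fintype.card_fin]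

theorem ep_mul_ep {i : ℕ} (hij : i ≤ j) (h : j ≤ m) {w : Mat m} (hw : w.det ≠ 0) :
    EP i w * EP j w = EP i w := by
  have hi : i ≤ m := hij.trans h
  have h1 := ep_mul_cl h hw
  have h2 : EP j w * cl hi w = cl hi w := by
    have h3 : cl hi w = (cl h w).submatrix id (Fin.castLE hij) := by
      ext a b
      rfl
    have h4 : EP j w * (cl h w).submatrix id (Fin.castLE hij) =
        (EP j w * cl h w).submatrix id (Fin.castLE hij) := by
      ext a b
      simp [Matrix.mul_apply]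
    rw [h3, h4, h1]
  have h5 : (cl hi w).transpose * EP j w = (cl hi w).transpose := by
    have h6 := congrArg Matrix.transpose h2
    rwa [Matrix.transpose_mul, (ep_prj h hw).sym] at h6
  rw [ep_eq hi, Matrix.mul_assoc, h5]

theorem mnr_eq' (h : j ≤ m) (w : Mat m) : mnr w j = ((cl h w).transpose * cl h w).det := by
  unfold mnr
  rw [dif_pos h, gram h]

/-- the minors of a product -/
theorem mnr_mul (h : j ≤ m) {w : Mat m} (hw : w.det ≠ 0) (z : Mat m) :
    mnr (z * w) j = mnr w j * (EP j w * (z.transpose * z) * EP j w + 1 - EP j w).det := by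
  have h1 := gram_pos h hw
  have hu : IsUnit ((cl h w).transpose * cl h w).det := isUnit_iff_ne_zero.2 h1.ne'
  obtain ⟨A, hA⟩ : ∃ A, A = cl h w := ⟨_, rfl⟩
  obtain ⟨G, hG⟩ : ∃ G, G = (cl h w).transpose * cl h w := ⟨_, rfl⟩
  obtain ⟨E, hE⟩ : ∃ E, E = EP j w := ⟨_, rfl⟩
  have hEA : E * A = A := by rw [hE, hA]; exact ep_mul_cl h hw
  have hE2 : E = A * (G⁻¹ * A.transpose) := by
    rw [hE, ep_eq h, hA, hG, Matrix.mul_assoc]
  have hGA : A.transpose * A = G := by rw [hA, hG]
  rw [mnr_eq' h, mnr_eq' h, ← mul_cl h z w, ← hG, ← hE, ← hA]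
  rw [← hG] at hu
  have h2 : E * (z.transpose * z) * E + 1 - E =
      1 + A * (G⁻¹ * A.transpose * ((z.transpose * z) * E - 1)) := by
    have h3 : A * (G⁻¹ * A.transpose * ((z.transpose * z) * E - 1)) =
        E * ((z.transpose * z) * E - 1) := by
      rw [← Matrix.mul_assoc, ← hE2]
    rw [h3, Matrix.mul_sub, Matrix.mul_one, Matrix.mul_assoc E]
    abel
  rw [h2, Matrix.det_one_add_mul_comm]
  have h4 : G⁻¹ * A.transpose * ((z.transpose * z) * E - 1) * A =
      G⁻¹ * (A.transpose * (z.transpose * z) * A) - 1 := by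
    rw [Matrix.mul_assoc (G⁻¹ * A.transpose), Matrix.sub_mul, Matrix.one_mul,
      Matrix.mul_assoc (z.transpose * z) E A, hEA, Matrix.mul_sub, Matrix.mul_assoc G⁻¹ A.transpose A,
      hGA, Matrix.nonsing_inv_mul _ hu, Matrix.mul_assoc G⁻¹, Matrix.mul_assoc A.transpose]
  rw [h4, add_sub_cancel, Matrix.det_mul, Matrix.det_nonsing_inv, Ring.inverse_eq_inv']
  have h5 : (z * A).transpose * (z * A) = A.transpose * (z.transpose * z) * A := by
    rw [Matrix.transpose_mul, Matrix.mul_assoc, Matrix.mul_assoc, Matrix.mul_assoc]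
  rw [h5]
  have h6 : G.det ≠ 0 := hu.ne_zero
  field_simp

/-- FLG -/
theorem pf_FLG : Pool.Agent.H27.L1.H68.GHK.T_FLG := by
  intro m w hw
  refine ⟨fun j hj => ⟨ep_prj hj hw, ep_trace hj hw, fun i hi => ep_mul_ep hi hj hw, ?_,
    fun z => mnr_mul hj hw (mt z)⟩, fun w' hw' i j hi hj => ?_⟩
  · rw [mnr_eq' hj]
    exact gram_pos hj hw
  · have h1 := ep_prj hi hw
    have h2 := ep_prj hj hw'
    obtain ⟨h3, h4⟩ := prj_le h1 h2
    rw [ep_trace hi hw] at h3
    rw [ep_trace hj hw'] at h4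
    exact ⟨prj_tr h1 h2, h3, h4⟩

end Pool.Agent.H27.L1.H5.GHK
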